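import Pool.Agent.MP_187b32_an.Herm.Basic

/-!
Words in the creation operators, the norms they define, and the spaces of Hermite functions of
bounded degree.
-/

set_option autoImplicit false

open MeasureTheory SchwartzMap Pool.Agent.Boltz
open scoped SchwartzMap ContDiff

noncomputable section

namespace Pool.Agent.MP_187b32_an

/-- A word in the creation operators. -/
def apW : List (Fin 3) → SV →L[ℝ] SV
  | [] => ContinuousLinearMap.id ℝ SV
  | j :: w => (ap j).comp (apW w)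

@[simp] lemma apW_nil (f : SV) : apW [] f = f := rfl

@[simp] lemma apW_cons (j : Fin 3) (w : List (Fin 3)) (f : SV) :
    apW (j :: w) f = ap j (apW w f) := rfl

lemma apW_append (u w : List (Fin 3)) (f : SV) : apW (u ++ w) f = apW u (apW w f) := by
  induction u with
  | nil => simp
  | cons j u ih => simp [ih]

lemma apW_ap (w : List (Fin 3)) (j : Fin 3) (f : SV) : apW w (ap j f) = ap j (apW w f) := by
  induction w with
  | nil => simp
  | cons i w ih => simp [ih, ap_comm i j]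

/-- The words of length `m`. -/
def words : ℕ → Finset (List (Fin 3))
  | 0 => {[]}
  | m + 1 => (Finset.univ ×ˢ words m).map
      ⟨fun p => p.1 :: p.2, fun p q h => by
        simp only [List.cons.injEq] at h
        exact Prod.ext h.1 h.2⟩

lemma mem_words {m : ℕ} {w : List (Fin 3)} : w ∈ words m ↔ w.length = m := by
  induction m generalizing w with
  | zero => simp [words]
  | succ m ih =>
    cases w with
    | nil => simp [words]
    | cons j w => simp [words, ih]

lemma sum_words_succ {M : Type} [AddCommMonoid M] (m : ℕ) (F : List (Fin 3) → M) :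
    ∑ w ∈ words (m + 1), F w = ∑ j, ∑ w ∈ words m, F (j :: w) := by
  rw [words, Finset.sum_map, Finset.sum_product]
  rfl

/-- `nA m f` is the sum of `|a⁺^w f|²` over the words of length `m`. -/
def nA (m : ℕ) (f : SV) : ℝ := ∑ w ∈ words m, ip (apW w f) (apW w f)

lemma nA_zero (f : SV) : nA 0 f = ip f f := by simp [nA, words]

lemma nA_succ (m : ℕ) (f : SV) : nA (m + 1) f = ∑ j, nA m (ap j f) := by
  simp only [nA, sum_words_succ, apW_cons, apW_ap]

lemma nA_succ' (m : ℕ) (f : SV) : nA (m + 1) f = ∑ w ∈ words m, nA 1 (apW w f) := by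
  rw [nA, sum_words_succ, Finset.sum_comm]
  refine Finset.sum_congr rfl fun w _ => ?_
  rw [nA_succ]
  simp [nA_zero]

lemma nA_add (m k : ℕ) (f : SV) : nA (m + k) f = ∑ w ∈ words m, nA k (apW w f) := by
  induction m generalizing f with
  | zero => simp [words]
  | succ m ih =>
    rw [Nat.add_right_comm, nA_succ, sum_words_succ]
    simp only [ih, apW_cons, apW_ap]

lemma nA_nonneg (m : ℕ) (f : SV) : 0 ≤ nA m f :=
  Finset.sum_nonneg fun _ _ => ip_self_nonneg _

lemma ip_apW_le_nA (w : List (Fin 3)) (f : SV) : ip (apW w f) (apW w f) ≤ nA w.length f :=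
  Finset.single_le_sum (f := fun w => ip (apW w f) (apW w f)) (fun _ _ => ip_self_nonneg _)
    (mem_words.2 rfl)

/-- The operators `R_m = ∑_w (a^w)(a⁺^w)`; `R_1 = N + 3`. -/
def RR : ℕ → SV →L[ℝ] SV
  | 0 => ContinuousLinearMap.id ℝ SV
  | m + 1 => ∑ j, (am j).comp ((RR m).comp (ap j))

@[simp] lemma RR_zero (f : SV) : RR 0 f = f := rfl

lemma RR_succ (m : ℕ) (f : SV) : RR (m + 1) f = ∑ j, am j (RR m (ap j f)) := by
  simp [RR]

lemma ip_RR (m : ℕ) (f g : SV) :
    ip f (RR m g) = ∑ w ∈ words m, ip (apW w f) (apW w g) := by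
  induction m generalizing f g with
  | zero => simp [words]
  | succ m ih =>
    rw [RR_succ, map_sum, sum_words_succ]
    refine Finset.sum_congr rfl fun j _ => ?_
    rw [← ip_ap, ih]
    simp only [apW_cons, apW_ap]

lemma nA_eq_ip_RR (m : ℕ) (f : SV) : nA m f = ip f (RR m f) := (ip_RR m f f).symm

lemma ip_RR_symm (m : ℕ) (f g : SV) : ip (RR m f) g = ip f (RR m g) := by
  rw [ip_comm, ip_RR, ip_RR]
  exact Finset.sum_congr rfl fun w _ => ip_comm _ _

lemma ip_am_am (j : Fin 3) (f : SV) : ip (am j f) (am j f) = ip (ap j f) (ap j f) - ip f f := by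
  rw [ip_ap, am_ap, ip_am]
  simp

lemma ip_le_ip_ap (j : Fin 3) (f : SV) : ip f f ≤ ip (ap j f) (ap j f) := by
  have := ip_am_am j f
  have := ip_self_nonneg (am j f)
  linarith

lemma ip_am_le (j : Fin 3) (f : SV) : ip (am j f) (am j f) ≤ ip (ap j f) (ap j f) := by
  have := ip_am_am j f
  have := ip_self_nonneg f
  linarith

lemma nA_one (f : SV) : nA 1 f = ∑ j, ip (ap j f) (ap j f) := by
  rw [nA_succ]; simp [nA_zero]

lemma nA_le_succ (m : ℕ) (f : SV) : nA m f ≤ nA (m + 1) f := by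
  rw [nA_succ', nA]
  refine Finset.sum_le_sum fun w _ => ?_
  rw [nA_one, Fin.sum_univ_three]
  have := ip_le_ip_ap 0 (apW w f)
  have := ip_self_nonneg (ap 1 (apW w f))
  have := ip_self_nonneg (ap 2 (apW w f))
  linarith

lemma nA_mono {m k : ℕ} (h : m ≤ k) (f : SV) : nA m f ≤ nA k f :=
  monotone_nat_of_le_succ (f := fun m => nA m f) (fun m => nA_le_succ m f) h

lemma RR_one (f : SV) : RR 1 f = ∑ j, am j (ap j f) := by rw [RR_succ]; simp

lemma RR_one_ap (j : Fin 3) (f : SV) : RR 1 (ap j f) = ap j (RR 1 f) + ap j f := by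
  rw [RR_one, RR_one, map_sum]
  have : ∀ i, am i (ap i (ap j f)) =
      ap j (am i (ap i f)) + (if i = j then (1 : ℝ) else 0) • ap i f := by
    intro i
    rw [ap_comm i j, am_ap]
  simp only [this, Finset.sum_add_distrib, ite_smul, one_smul, zero_smul, Finset.sum_ite_eq',
    Finset.mem_univ, if_true]

lemma RR_two (f : SV) : RR 2 f = RR 1 (RR 1 f) + RR 1 f := by
  rw [RR_succ]
  simp only [RR_one_ap, map_add, Finset.sum_add_distrib]
  rw [← RR_one, ← RR_one]

lemma ip_RR_one_le (f : SV) : ip (RR 1 f) (RR 1 f) ≤ nA 2 f := by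
  rw [nA_eq_ip_RR, RR_two, map_add, ip_RR_symm 1 f, ← nA_eq_ip_RR]
  linarith [nA_nonneg 1 f]

lemma nA_one_le (f : SV) : nA 1 f ≤ √(nA 0 f) * √(nA 2 f) := by
  rw [nA_eq_ip_RR, nA_zero]
  refine (le_abs_self _).trans ((abs_ip_le _ _).trans ?_)
  gcongr
  exact ip_RR_one_le f

/-- Interpolation between the norms `nA`. -/
lemma nA_interp (m : ℕ) (f : SV) : nA (m + 1) f ≤ √(nA m f) * √(nA (m + 2) f) := by
  rw [nA_add m 1, nA_add m 2]
  calc ∑ w ∈ words m, nA 1 (apW w f)
      ≤ ∑ w ∈ words m, √(nA 0 (apW w f)) * √(nA 2 (apW w f)) :=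
        Finset.sum_le_sum fun w _ => nA_one_le _
    _ ≤ √(∑ w ∈ words m, nA 0 (apW w f)) * √(∑ w ∈ words m, nA 2 (apW w f)) :=
        Real.sum_sqrt_mul_sqrt_le _ (fun _ => nA_nonneg _ _) (fun _ => nA_nonneg _ _)
    _ = _ := by rw [← nA_add m 0]; rfl

lemma ip_sub_self_le (f g : SV) : ip (f - g) (f - g) ≤ 2 * ip f f + 2 * ip g g := by
  have := ip_self_nonneg (f + g)
  simp only [map_add, map_sub, LinearMap.add_apply, LinearMap.sub_apply] at this ⊢
  linarith

lemma ip_add_self_le (f g : SV) : ip (f + g) (f + g) ≤ 2 * ip f f + 2 * ip g g := by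
  have := ip_self_nonneg (f - g)
  simp only [map_add, map_sub, LinearMap.add_apply, LinearMap.sub_apply] at this ⊢
  linarith

lemma nA_sub_le (m : ℕ) (f g : SV) : nA m (f - g) ≤ 2 * nA m f + 2 * nA m g := by
  simp only [nA, map_sub (apW _), Finset.mul_sum, ← Finset.sum_add_distrib]
  exact Finset.sum_le_sum fun w _ => ip_sub_self_le _ _

lemma nA_add_le (m : ℕ) (f g : SV) : nA m (f + g) ≤ 2 * nA m f + 2 * nA m g := by
  simp only [nA, map_add (apW _), Finset.mul_sum, ← Finset.sum_add_distrib]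
  exact Finset.sum_le_sum fun w _ => ip_add_self_le _ _

section Filt

variable {M : Type} [AddCommGroup M] [Module ℝ M]

/-- The filtration generated by a vector `e` and three operators. -/
def Filt (e : M) (m : Fin 3 → M →ₗ[ℝ] M) : ℕ → Submodule ℝ M
  | 0 => Submodule.span ℝ {e}
  | n + 1 => Filt e m n ⊔ ⨆ j, (Filt e m n).map (m j)

variable {e : M} {m : Fin 3 → M →ₗ[ℝ] M}

instance Filt.finite (n : ℕ) : FiniteDimensional ℝ (Filt e m n) := by
  induction n with
  | zero => exact inferInstanceAs (FiniteDimensional ℝ (Submodule.span ℝ {e}))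
  | succ n ih =>
    exact inferInstanceAs
      (FiniteDimensional ℝ (Filt e m n ⊔ ⨆ j, (Filt e m n).map (m j) : Submodule ℝ M))

lemma Filt.mem_zero {x : M} : x ∈ Filt e m 0 ↔ ∃ c : ℝ, c • e = x := Submodule.mem_span_singleton

lemma Filt.le_succ (n : ℕ) : Filt e m n ≤ Filt e m (n + 1) := le_sup_left

lemma Filt.mono {n k : ℕ} (h : n ≤ k) : Filt e m n ≤ Filt e m k :=
  monotone_nat_of_le_succ (f := Filt e m) Filt.le_succ h

lemma Filt.base_mem (n : ℕ) : e ∈ Filt e m n :=
  Filt.mono (Nat.zero_le n) (Submodule.mem_span_singleton_self e)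

lemma Filt.mul_mem {n : ℕ} (j : Fin 3) {x : M} (hx : x ∈ Filt e m n) :
    m j x ∈ Filt e m (n + 1) :=
  Submodule.mem_sup_right (Submodule.mem_iSup_of_mem j (Submodule.mem_map_of_mem hx))

lemma Filt.succ_induction {n : ℕ} {P : M → Prop} (h0 : ∀ x ∈ Filt e m n, P x)
    (h1 : ∀ j, ∀ x ∈ Filt e m n, P (m j x)) (hadd : ∀ x y, P x → P y → P (x + y)) :
    ∀ x ∈ Filt e m (n + 1), P x := by
  intro x hx
  obtain ⟨y, hy, z, hz, rfl⟩ := Submodule.mem_sup.1 hx
  refine hadd _ _ (h0 y hy) ?_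
  refine Submodule.iSup_induction _ (motive := P) hz ?_ (h0 0 (Submodule.zero_mem _)) hadd
  rintro j _ ⟨w, hw, rfl⟩
  exact h1 j w hw

end Filt

/-- Polynomials of degree at most `n` times `sqM`. -/
def HP (n : ℕ) : Submodule ℝ SV := Filt sqMS (fun j => (mulV j : SV →ₗ[ℝ] SV)) n

instance (n : ℕ) : FiniteDimensional ℝ (HP n) := Filt.finite n

lemma HP_mono {n k : ℕ} (h : n ≤ k) : HP n ≤ HP k := Filt.mono h

lemma sqMS_mem (n : ℕ) : sqMS ∈ HP n := Filt.base_mem n

lemma mulV_mem {n : ℕ} (j : Fin 3) {f : SV} (hf : f ∈ HP n) : mulV j f ∈ HP (n + 1) :=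
  Filt.mul_mem (m := fun j => (mulV j : SV →ₗ[ℝ] SV)) j hf

lemma am_of_mem_zero (j : Fin 3) {f : SV} (hf : f ∈ HP 0) : am j f = 0 := by
  obtain ⟨c, rfl⟩ := Filt.mem_zero.1 hf
  rw [map_smul, am_sqMS, smul_zero]

lemma am_mem {n : ℕ} (j : Fin 3) : ∀ f ∈ HP (n + 1), am j f ∈ HP n := by
  induction n with
  | zero =>
    refine Filt.succ_induction (fun f hf => ?_) (fun i f hf => ?_) (fun f g hf hg => ?_)
    · rw [am_of_mem_zero j hf]; exact Submodule.zero_mem _
    · change am j (mulV i f) ∈ _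
      rw [am_mulV, am_of_mem_zero j hf, map_zero, zero_add]
      exact Submodule.smul_mem _ _ hf
    · rw [map_add]; exact Submodule.add_mem _ hf hg
  | succ n ih =>
    refine Filt.succ_induction (fun f hf => ?_) (fun i f hf => ?_) (fun f g hf hg => ?_)
    · exact HP_mono (Nat.le_succ n) (ih f hf)
    · change am j (mulV i f) ∈ _
      rw [am_mulV]
      exact Submodule.add_mem _ (mulV_mem i (ih f hf)) (Submodule.smul_mem _ _ hf)
    · rw [map_add]; exact Submodule.add_mem _ hf hg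

lemma am_mem_self {n : ℕ} (j : Fin 3) {f : SV} (hf : f ∈ HP n) : am j f ∈ HP n :=
  am_mem j f (HP_mono (Nat.le_succ n) hf)

lemma ap_mem {n : ℕ} (j : Fin 3) {f : SV} (hf : f ∈ HP n) : ap j f ∈ HP (n + 1) := by
  have : ap j f = mulV j f - am j f := by rw [← ap_add_am]; abel
  rw [this]
  exact Submodule.sub_mem _ (mulV_mem j hf) (HP_mono (Nat.le_succ n) (am_mem_self j hf))

lemma dV_mem {n : ℕ} (j : Fin 3) {f : SV} (hf : f ∈ HP n) : dV j f ∈ HP (n + 1) := by
  have : dV j f = (1 / 2 : ℝ) • (am j f - ap j f) := by rw [am_sub_ap, smul_smul]; norm_num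
  rw [this]
  exact Submodule.smul_mem _ _
    (Submodule.sub_mem _ (HP_mono (Nat.le_succ n) (am_mem_self j hf)) (ap_mem j hf))

lemma apW_mem {n : ℕ} (w : List (Fin 3)) {f : SV} (hf : f ∈ HP n) :
    apW w f ∈ HP (n + w.length) := by
  induction w with
  | nil => exact hf
  | cons j w ih => exact ap_mem j ih

lemma RR_mem (m : ℕ) : ∀ {n : ℕ} {f : SV}, f ∈ HP n → RR m f ∈ HP n := by
  induction m with
  | zero => exact fun hf => hf
  | succ m ih =>
    intro n f hf
    rw [RR_succ]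
    exact Submodule.sum_mem _ fun j _ => am_mem j _ (ih (ap_mem j hf))

/-- Multiplication of functions by a coordinate. -/
def mulC (j : Fin 3) : (E → ℝ) →ₗ[ℝ] (E → ℝ) where
  toFun f v := v j * f v
  map_add' f g := by funext v; simp [mul_add]
  map_smul' c f := by funext v; simp [mul_left_comm]

@[simp] lemma mulC_apply (j : Fin 3) (f : E → ℝ) (v : E) : mulC j f v = v j * f v := rfl

/-- Polynomial functions of degree at most `n`. -/
def PV (n : ℕ) : Submodule ℝ (E → ℝ) := Filt (fun _ => 1) mulC n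

instance (n : ℕ) : FiniteDimensional ℝ (PV n) := Filt.finite n

lemma PV_mono {n k : ℕ} (h : n ≤ k) : PV n ≤ PV k := Filt.mono h

lemma exists_PV_of_HP {n : ℕ} : ∀ g ∈ HP n, ∃ φ ∈ PV n, ∀ v, g v = φ v * sqM v := by
  induction n with
  | zero =>
    intro g hg
    obtain ⟨c, rfl⟩ := Filt.mem_zero.1 hg
    exact ⟨c • fun _ => 1, Filt.mem_zero.2 ⟨c, rfl⟩, fun v => by simp⟩
  | succ n ih =>
    refine Filt.succ_induction (fun f hf => ?_) (fun i f hf => ?_) (fun f g hf hg => ?_)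
    · obtain ⟨φ, hφ, h⟩ := ih f hf
      exact ⟨φ, PV_mono (Nat.le_succ n) hφ, h⟩
    · obtain ⟨φ, hφ, h⟩ := ih f hf
      exact ⟨mulC i φ, Filt.mul_mem i hφ, fun v => by simp [h, mul_assoc]⟩
    · obtain ⟨φ, hφ, h⟩ := hf
      obtain ⟨ψ, hψ, h'⟩ := hg
      exact ⟨φ + ψ, Submodule.add_mem _ hφ hψ, fun v => by simp [h, h', add_mul]⟩

lemma exists_HP_of_PV {n : ℕ} : ∀ φ ∈ PV n, ∃ g ∈ HP n, ∀ v, g v = φ v * sqM v := by
  induction n with
  | zero =>
    intro φ hφ
    obtain ⟨c, rfl⟩ := Filt.mem_zero.1 hφ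
    exact ⟨c • sqMS, Filt.mem_zero.2 ⟨c, rfl⟩, fun v => by simp⟩
  | succ n ih =>
    refine Filt.succ_induction (fun f hf => ?_) (fun i f hf => ?_) (fun f g hf hg => ?_)
    · obtain ⟨φ, hφ, h⟩ := ih f hf
      exact ⟨φ, HP_mono (Nat.le_succ n) hφ, h⟩
    · obtain ⟨φ, hφ, h⟩ := ih f hf
      exact ⟨mulV i φ, mulV_mem i hφ, fun v => by simp [h, mul_assoc]⟩
    · obtain ⟨φ, hφ, h⟩ := hf
      obtain ⟨ψ, hψ, h'⟩ := hg
      exact ⟨φ + ψ, Submodule.add_mem _ hφ hψ, fun v => by simp [h, h', add_mul]⟩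

end Pool.Agent.MP_187b32_an
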