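import Pool.Agent.MP_187b32_an.Calc.Defs

/-!
Velocity space, the square root of the Maxwellian as a Schwartz function, and the creation and
annihilation operators on Schwartz space.
-/

set_option autoImplicit false

open MeasureTheory SchwartzMap Pool.Agent.Boltz
open scoped SchwartzMap ContDiff

noncomputable section

namespace Pool.Agent.MP_187b32_an

/-- Velocity space. -/
abbrev E : Type := E3

/-- Schwartz functions of the velocity. -/
abbrev SV : Type := SchwartzMap E ℝ

/-- Square root of the (unnormalised) Maxwellian. -/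
def sqM (v : E) : ℝ := Real.exp (-‖v‖ ^ 2 / 4)

lemma sqM_pos (v : E) : 0 < sqM v := Real.exp_pos _

lemma sqM_le_one (v : E) : sqM v ≤ 1 := by
  unfold sqM
  rw [Real.exp_le_one_iff]
  have := sq_nonneg ‖v‖
  linarith

lemma contDiff_sqM : ContDiff ℝ ∞ sqM := by
  unfold sqM
  exact Real.contDiff_exp.comp (((contDiff_norm_sq ℝ).neg).div_const 4)

lemma continuous_sqM : Continuous sqM := contDiff_sqM.continuous

lemma hasFDerivAt_sqM (v : E) :
    HasFDerivAt sqM ((-(sqM v) / 2) • innerSL ℝ v) v := by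
  have h0 := ((hasStrictFDerivAt_norm_sq v).hasFDerivAt.const_mul (-1 / 4 : ℝ)).exp
  have h1 : sqM = fun x : E => Real.exp (-1 / 4 * ‖x‖ ^ 2) := by
    funext x; rw [sqM]; congr 1; ring
  have h2 : ((-(sqM v) / 2) • innerSL ℝ v : E →L[ℝ] ℝ) =
      Real.exp (-1 / 4 * ‖v‖ ^ 2) • (-1 / 4 : ℝ) • (2 • innerSL ℝ v) := by
    ext x
    rw [h1]
    simp
    ring
  rw [h2, h1]
  exact h0

lemma pow_mul_sqM_le (N : ℕ) (v : E) : (1 + ‖v‖) ^ N * sqM v ≤ Real.exp (N ^ 2) := by
  have h1 : (1 + ‖v‖) ^ N ≤ Real.exp (N * ‖v‖) := by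
    rw [Real.exp_nat_mul]
    gcongr
    linarith [Real.add_one_le_exp ‖v‖]
  calc (1 + ‖v‖) ^ N * sqM v ≤ Real.exp (N * ‖v‖) * sqM v := by
        gcongr; exact (sqM_pos v).le
    _ = Real.exp (N * ‖v‖ + -‖v‖ ^ 2 / 4) := by rw [sqM, Real.exp_add]
    _ ≤ Real.exp (N ^ 2) := by
        gcongr
        nlinarith [sq_nonneg ((N : ℝ) - ‖v‖ / 2)]

lemma temperate_fderiv {F : Type} [NormedAddCommGroup F] [NormedSpace ℝ F] {p : E → F}
    (hp : p.HasTemperateGrowth) : (fderiv ℝ p).HasTemperateGrowth := by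
  refine ⟨(contDiff_infty_iff_fderiv.1 hp.1).2, fun n => ?_⟩
  obtain ⟨k, C, h⟩ := hp.2 (n + 1)
  exact ⟨k, C, fun x => by rw [norm_iteratedFDeriv_fderiv]; exact h x⟩

lemma decay_sqM_smul (n : ℕ) : ∀ (F : Type) [NormedAddCommGroup F] [NormedSpace ℝ F] (p : E → F),
    p.HasTemperateGrowth → ∀ k : ℕ, ∃ C : ℝ, ∀ v,
      ‖v‖ ^ k * ‖iteratedFDeriv ℝ n (fun v => sqM v • p v) v‖ ≤ C := by
  induction n with
  | zero =>
    intro F _ _ p hp k
    obtain ⟨m, C, h⟩ := hp.2 0
    have hC : 0 ≤ C := by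
      have := (norm_nonneg _).trans (h 0)
      simpa using this
    refine ⟨C * Real.exp ((k + m : ℕ) ^ 2), fun v => ?_⟩
    have h1 := h v
    rw [norm_iteratedFDeriv_zero] at h1 ⊢
    rw [norm_smul, Real.norm_of_nonneg (sqM_pos v).le]
    have h2 := pow_mul_sqM_le (k + m) v
    have h3 : ‖v‖ ^ k ≤ (1 + ‖v‖) ^ k := by gcongr; linarith
    have h4 := sqM_pos v
    calc ‖v‖ ^ k * (sqM v * ‖p v‖) ≤ (1 + ‖v‖) ^ k * (sqM v * (C * (1 + ‖v‖) ^ m)) := by gcongr
      _ = C * ((1 + ‖v‖) ^ (k + m) * sqM v) := by ring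
      _ ≤ _ := by gcongr
  | succ n ih =>
    intro F _ _ p hp k
    set q : E → E →L[ℝ] F := fun v => fderiv ℝ p v +
      ContinuousLinearMap.smulRightL ℝ E F (((-1 / 2 : ℝ) • innerSL ℝ : E →L[ℝ] E →L[ℝ] ℝ) v) (p v)
      with hq
    have hqt : q.HasTemperateGrowth :=
      (temperate_fderiv hp).add ((ContinuousLinearMap.smulRightL ℝ E F).bilinear_hasTemperateGrowth
        (ContinuousLinearMap.hasTemperateGrowth _) hp)
    obtain ⟨C, hC⟩ := ih _ q hqt k
    refine ⟨C, fun v => ?_⟩
    have : fderiv ℝ (fun v => sqM v • p v) = fun v => sqM v • q v := by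
      funext v
      have h1 := (hasFDerivAt_sqM v).smul
        (hp.1.differentiable (by simp) v).hasFDerivAt
      rw [show (fun v => sqM v • p v) = sqM • p from rfl, h1.fderiv]
      ext w
      simp [hq, smul_smul]
      congr 1
      ring
    rw [← norm_iteratedFDeriv_fderiv, this]
    exact hC v

/-- `sqM` times a function of temperate growth, as a Schwartz function. -/
def gaussS (p : E → ℝ) (hp : p.HasTemperateGrowth) : SV where
  toFun v := p v * sqM v
  smooth' := hp.1.mul contDiff_sqM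
  decay' k n := by
    obtain ⟨C, hC⟩ := decay_sqM_smul n ℝ p hp k
    refine ⟨C, fun v => ?_⟩
    simpa [mul_comm] using hC v

@[simp] lemma gaussS_apply (p : E → ℝ) (hp : p.HasTemperateGrowth) (v : E) :
    gaussS p hp v = p v * sqM v := rfl

/-- `sqM` as a Schwartz function. -/
def sqMS : SV := gaussS (fun _ => 1) (by fun_prop)

@[simp] lemma sqMS_apply (v : E) : sqMS v = sqM v := by simp [sqMS]

lemma temperate_coord (j : Fin 3) : (fun v : E => v j).HasTemperateGrowth :=
  (EuclideanSpace.proj j : E →L[ℝ] ℝ).hasTemperateGrowth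

/-- Multiplication by the coordinate `V_j`. -/
def mulV (j : Fin 3) : SV →L[ℝ] SV := smulLeftCLM ℝ (fun v : E => v j)

/-- The derivative in the direction `e_j`. -/
def dV (j : Fin 3) : SV →L[ℝ] SV := LineDeriv.lineDerivOpCLM ℝ SV (ev j)

/-- The creation operator `V_j / 2 - ∂_j`. -/
def ap (j : Fin 3) : SV →L[ℝ] SV := (1 / 2 : ℝ) • mulV j - dV j

/-- The annihilation operator `V_j / 2 + ∂_j`. -/
def am (j : Fin 3) : SV →L[ℝ] SV := (1 / 2 : ℝ) • mulV j + dV j

@[simp] lemma mulV_apply (j : Fin 3) (f : SV) (v : E) : mulV j f v = v j * f v := by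
  simp [mulV, smulLeftCLM_apply_apply (temperate_coord j)]

lemma dV_apply (j : Fin 3) (f : SV) (v : E) : dV j f v = fderiv ℝ f v (ev j) := rfl

lemma ap_apply (j : Fin 3) (f : SV) (v : E) :
    ap j f v = v j / 2 * f v - fderiv ℝ f v (ev j) := by
  simp [ap, dV_apply]; ring

lemma am_apply (j : Fin 3) (f : SV) (v : E) :
    am j f v = v j / 2 * f v + fderiv ℝ f v (ev j) := by
  simp [am, dV_apply]; ring

lemma ap_add_am (j : Fin 3) (f : SV) : ap j f + am j f = mulV j f := by
  ext v; simp [ap_apply, am_apply]; ring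

lemma am_sub_ap (j : Fin 3) (f : SV) : am j f - ap j f = (2 : ℝ) • dV j f := by
  ext v; simp [ap_apply, am_apply, dV_apply]; ring

@[simp] lemma ev_apply (i j : Fin 3) : ev j i = if i = j then 1 else 0 := by
  simp [ev]

lemma inner_ev (v : E) (j : Fin 3) : inner ℝ v (ev j) = v j := by
  simp [ev, EuclideanSpace.inner_single_right]

lemma norm_ev (j : Fin 3) : ‖ev j‖ = 1 := by simp [ev]

lemma dV_sqMS (j : Fin 3) : dV j sqMS = (-1 / 2 : ℝ) • mulV j sqMS := by
  ext v
  have : (sqMS : E → ℝ) = sqM := funext sqMS_apply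
  rw [dV_apply, this, (hasFDerivAt_sqM v).fderiv]
  simp [inner_ev]
  ring

lemma am_sqMS (j : Fin 3) : am j sqMS = 0 := by
  simp only [am, add_apply, smul_apply, dV_sqMS]
  rw [← add_smul]; norm_num

lemma ap_sqMS (j : Fin 3) : ap j sqMS = mulV j sqMS := by
  rw [← ap_add_am, am_sqMS, add_zero]

lemma mulV_comm (i j : Fin 3) (f : SV) : mulV i (mulV j f) = mulV j (mulV i f) := by
  ext v; simp; ring

lemma dV_mulV (i j : Fin 3) (f : SV) :
    dV i (mulV j f) = mulV j (dV i f) + (if i = j then (1 : ℝ) else 0) • f := by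
  ext v
  have h0 : (mulV j f : E → ℝ) = fun v => (EuclideanSpace.proj j : E →L[ℝ] ℝ) v * f v := by
    funext v; simp
  have h1 := ((EuclideanSpace.proj j : E →L[ℝ] ℝ).hasFDerivAt (x := v)).mul (f.hasFDerivAt v)
  rw [dV_apply, h0]
  erw [h1.fderiv]
  by_cases h : i = j
  · subst h; simp [dV_apply]
  · simp [dV_apply, h, Ne.symm h]

lemma dV_comm (i j : Fin 3) (f : SV) : dV i (dV j f) = dV j (dV i f) := by
  ext v
  have key : ∀ a b : Fin 3, dV a (dV b f) v = fderiv ℝ (fderiv ℝ f) v (ev a) (ev b) := by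
    intro a b
    have h0 : (dV b f : E → ℝ) = fun v => fderiv ℝ f v (ev b) := rfl
    have hd : DifferentiableAt ℝ (fderiv ℝ f) v :=
      ((contDiff_infty_iff_fderiv.1 (f.smooth ⊤)).2.differentiable (by simp)) v
    rw [dV_apply, h0, fderiv_clm_apply hd (differentiableAt_const _)]
    simp
  rw [key, key]
  exact ((f.smooth 2).contDiffAt.isSymmSndFDerivAt (by simp)).eq _ _

lemma ap_comm (i j : Fin 3) (f : SV) : ap i (ap j f) = ap j (ap i f) := by
  simp only [ap, sub_apply, smul_apply, map_sub, map_smul,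
    dV_mulV, mulV_comm i j, dV_comm i j, eq_comm (a := j) (b := i)]
  module

lemma am_comm (i j : Fin 3) (f : SV) : am i (am j f) = am j (am i f) := by
  simp only [am, add_apply, smul_apply, map_add, map_smul,
    dV_mulV, mulV_comm i j, dV_comm i j, eq_comm (a := j) (b := i)]
  module

lemma am_ap (i j : Fin 3) (f : SV) :
    am i (ap j f) = ap j (am i f) + (if i = j then (1 : ℝ) else 0) • f := by
  simp only [am, ap, add_apply, sub_apply,
    smul_apply, map_add, map_sub, map_smul,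
    dV_mulV, mulV_comm i j, dV_comm i j, eq_comm (a := j) (b := i)]
  module

lemma am_mulV (i j : Fin 3) (f : SV) :
    am i (mulV j f) = mulV j (am i f) + (if i = j then (1 : ℝ) else 0) • f := by
  simp only [am, add_apply, smul_apply, map_add, map_smul,
    dV_mulV, mulV_comm i j]
  module

lemma ap_mulV (i j : Fin 3) (f : SV) :
    ap i (mulV j f) = mulV j (ap i f) - (if i = j then (1 : ℝ) else 0) • f := by
  simp only [ap, sub_apply, smul_apply, map_sub, map_smul,
    dV_mulV, mulV_comm i j]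
  module

/-- Products of Schwartz functions are integrable. -/
lemma integrable_mul (f g : SV) : Integrable (fun v => f v * g v) :=
  (bilinLeftCLM (ContinuousLinearMap.mul ℝ ℝ) g.hasTemperateGrowth f).integrable

/-- The `L²` pairing of Schwartz functions, as a bilinear form. -/
def ip : SV →ₗ[ℝ] SV →ₗ[ℝ] ℝ :=
  LinearMap.mk₂ ℝ (fun f g => ∫ v, f v * g v)
    (fun f₁ f₂ g => by
      rw [← integral_add (integrable_mul f₁ g) (integrable_mul f₂ g)]
      simp [add_mul])
    (fun c f g => by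
      rw [smul_eq_mul, ← integral_const_mul]
      simp [mul_assoc])
    (fun f g₁ g₂ => by
      rw [← integral_add (integrable_mul f g₁) (integrable_mul f g₂)]
      simp [mul_add])
    (fun c f g => by
      rw [smul_eq_mul, ← integral_const_mul]
      simp [mul_left_comm])

lemma ip_def (f g : SV) : ip f g = ∫ v, f v * g v := rfl

lemma ip_comm (f g : SV) : ip f g = ip g f := by simp [ip_def, mul_comm]

lemma ip_self_nonneg (f : SV) : 0 ≤ ip f f := integral_nonneg fun _ => mul_self_nonneg _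

lemma ip_self_eq (f : SV) : ip f f = ∫ v, f v ^ 2 := by simp [ip_def, sq]

lemma ip_eq_inner (f g : SV) : ip f g = inner ℝ (f.toLp 2 volume) (g.toLp 2 volume) := by
  rw [ip_def, L2.inner_def]
  apply integral_congr_ae
  filter_upwards [f.coeFn_toLp 2 volume, g.coeFn_toLp 2 volume] with v hf hg
  rw [hf, hg]; simp [mul_comm]

lemma ip_self_eq_norm_sq (f : SV) : ip f f = ‖f.toLp 2 volume‖ ^ 2 := by
  rw [ip_eq_inner, real_inner_self_eq_norm_sq]

lemma ip_self_eq_zero {f : SV} (h : ip f f = 0) : f = 0 := by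
  rw [ip_self_eq_norm_sq, pow_eq_zero_iff (by norm_num), norm_eq_zero] at h
  apply injective_toLp 2 volume
  change toLpCLM ℝ ℝ 2 volume f = toLpCLM ℝ ℝ 2 volume 0
  rw [map_zero]; exact h

/-- Cauchy-Schwarz. -/
lemma abs_ip_le (f g : SV) : |ip f g| ≤ √(ip f f) * √(ip g g) := by
  rw [ip_self_eq_norm_sq, ip_self_eq_norm_sq, Real.sqrt_sq (norm_nonneg _),
    Real.sqrt_sq (norm_nonneg _), ip_eq_inner]
  exact abs_real_inner_le_norm _ _

lemma ip_mulV (j : Fin 3) (f g : SV) : ip (mulV j f) g = ip f (mulV j g) := by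
  simp only [ip_def, mulV_apply]
  congr 1; funext v; ring

lemma ip_dV (j : Fin 3) (f g : SV) : ip (dV j f) g = -ip f (dV j g) := by
  have := integral_mul_lineDerivOp_right_eq_neg_left (μ := volume) f g (ev j)
  rw [ip_def, ip_def]
  change _ = -∫ v, f v * (LineDeriv.lineDerivOp (ev j) g) v
  rw [this, neg_neg]
  rfl

lemma ip_ap (j : Fin 3) (f g : SV) : ip (ap j f) g = ip f (am j g) := by
  simp only [ap, am, add_apply, sub_apply,
    smul_apply, map_add, map_sub, map_smul, LinearMap.sub_apply,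
    LinearMap.smul_apply, ip_mulV, ip_dV]
  ring

lemma ip_am (j : Fin 3) (f g : SV) : ip (am j f) g = ip f (ap j g) := by
  rw [ip_comm, ← ip_ap, ip_comm]

end Pool.Agent.MP_187b32_an
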